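import Pool.Agent.GT.StmtsA

/-! Squad GT, row A_MDH: from lines to subspaces. -/

open Finset

namespace Pool.Agent.GT.H8

open Pool.Agent.GT

/-- glue two words -/
def glue {ι κ₁ κ₂ α : Type} (e : ι ≃ κ₁ ⊕ κ₂) (x : κ₁ → α) (z : κ₂ → α) : ι → α :=
  fun i => Sum.elim x z (e i)

/-- the words on `ι` are the pairs of words -/
def glueEquiv {ι κ₁ κ₂ α : Type} (e : ι ≃ κ₁ ⊕ κ₂) : (κ₁ → α) × (κ₂ → α) ≃ (ι → α) where
  toFun p := glue e p.1 p.2
  invFun w := (fun j => w (e.symm (Sum.inl j)), fun j => w (e.symm (Sum.inr j)))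
  left_inv p := by
    refine Prod.ext ?_ ?_
    · funext j
      simp [glue]
    · funext j
      simp [glue]
  right_inv w := by
    funext i
    have key : ∀ x : κ₁ ⊕ κ₂, Sum.elim (fun j => w (e.symm (Sum.inl j)))
        (fun j => w (e.symm (Sum.inr j))) x = w (e.symm x) := by
      rintro (j | j) <;> rfl
    have h1 := key (e i)
    rw [e.symm_apply_apply] at h1
    exact h1

theorem card_glue {ι κ₁ κ₂ α : Type} [Fintype ι] [Fintype κ₁] [Fintype κ₂] [Fintype α]
    [DecidableEq α] [DecidableEq ι] [DecidableEq κ₁] [DecidableEq κ₂]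
    (e : ι ≃ κ₁ ⊕ κ₂) (A : Finset (ι → α)) :
    A.card = ∑ z : κ₂ → α, (univ.filter fun x : κ₁ → α => glue e x z ∈ A).card := by
  classical
  have h1 : A.card = ∑ w : ι → α, if w ∈ A then 1 else 0 := by
    rw [Finset.sum_boole]
    simp
  rw [h1, ← Equiv.sum_comp (glueEquiv e), Fintype.sum_prod_type_right]
  refine Finset.sum_congr rfl fun z _ => ?_
  rw [Finset.card_filter]
  rfl

theorem mdh : MdhStmt := by
  classical
  intro k hk hD m
  induction m with
  | zero =>
    intro δ hδ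
    refine ⟨0, ?_⟩
    intro ι _ _ A hA
    have hk' : (0 : ℝ) < k := by exact_mod_cast hk
    have h1 : 0 < (A.card : ℝ) := lt_of_lt_of_le (by positivity) hA
    have h2 : A.Nonempty := by
      rw [← Finset.card_pos]
      exact_mod_cast h1
    obtain ⟨x, hx⟩ := h2
    refine ⟨fun i => Sum.inl (x i), fun e => e.elim0, fun y => ?_⟩
    exact hx
  | succ m ih =>
    intro δ hδ
    have hk' : (0 : ℝ) < k := by exact_mod_cast hk
    obtain ⟨n₁, hn₁⟩ := ih (δ / 2) (by positivity)
    have : Nonempty (Fin n₁ → Fin k ⊕ Fin m) := ⟨fun _ => Sum.inl ⟨0, hk⟩⟩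
    obtain ⟨F, hF⟩ : ∃ F : ℝ, F = (Fintype.card (Fin n₁ → Fin k ⊕ Fin m) : ℝ) := ⟨_, rfl⟩
    have hF0 : 0 < F := by
      rw [hF]
      exact_mod_cast Fintype.card_pos
    obtain ⟨n₂, hn₂⟩ := hD (δ / (2 * F)) (by positivity)
    refine ⟨n₁ + n₂, ?_⟩
    intro ι _ hι A hA
    obtain ⟨r, hr⟩ : ∃ r, Fintype.card ι = n₁ + r := ⟨Fintype.card ι - n₁, by omega⟩
    have hrn : n₂ ≤ r := by omega
    have e : ι ≃ Fin n₁ ⊕ Fin r := by
      refine Fintype.equivOfCardEq ?_
      rw [Fintype.card_sum, Fintype.card_fin, Fintype.card_fin, hr]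
    obtain ⟨Az, hAz⟩ : ∃ Az : (Fin r → Fin k) → Finset (Fin n₁ → Fin k),
      Az = fun z => univ.filter fun x : Fin n₁ → Fin k => glue e x z ∈ A := ⟨_, rfl⟩
    have hcard : (A.card : ℝ) = ∑ z, ((Az z).card : ℝ) := by
      rw [card_glue e A, hAz]
      push_cast
      rfl
    have hAzle : ∀ z, ((Az z).card : ℝ) ≤ (k : ℝ) ^ n₁ := by
      intro z
      have h1 := Finset.card_le_univ (Az z)
      rw [Fintype.card_fun, Fintype.card_fin, Fintype.card_fin] at h1
      exact_mod_cast h1
    obtain ⟨Z, hZ⟩ : ∃ Z : Finset (Fin r → Fin k),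
      Z = univ.filter fun z => δ / 2 * (k : ℝ) ^ n₁ ≤ ((Az z).card : ℝ) := ⟨_, rfl⟩
    have hZcard : δ / 2 * (k : ℝ) ^ r ≤ (Z.card : ℝ) := by
      have h1 : (A.card : ℝ) ≤ (Z.card : ℝ) * (k : ℝ) ^ n₁ +
          (k : ℝ) ^ r * (δ / 2 * (k : ℝ) ^ n₁) := by
        have h2 : ∀ z ∈ (univ : Finset (Fin r → Fin k)), ((Az z).card : ℝ) ≤
            (if z ∈ Z then (k : ℝ) ^ n₁ else 0) + δ / 2 * (k : ℝ) ^ n₁ := by
          intro z _
          by_cases hz : z ∈ Z
          · rw [if_pos hz]
            have := hAzle z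
            have h3 : 0 ≤ δ / 2 * (k : ℝ) ^ n₁ := by positivity
            linarith
          · rw [if_neg hz, zero_add]
            rw [hZ, Finset.mem_filter, not_and] at hz
            exact (not_le.1 (hz (Finset.mem_univ z))).le
        rw [hcard]
        refine (Finset.sum_le_sum h2).trans (le_of_eq ?_)
        rw [Finset.sum_add_distrib, Finset.sum_ite_mem, Finset.univ_inter, Finset.sum_const,
          Finset.sum_const, Finset.card_univ, Fintype.card_fun, Fintype.card_fin, Fintype.card_fin,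
          nsmul_eq_mul, nsmul_eq_mul]
        push_cast
        ring
      rw [hr, pow_add] at hA
      have h4 : (0 : ℝ) < (k : ℝ) ^ n₁ := by positivity
      have h5 : δ / 2 * (k : ℝ) ^ r * (k : ℝ) ^ n₁ ≤ (Z.card : ℝ) * (k : ℝ) ^ n₁ := by
        have h6 := hA.trans h1
        nlinarith
      exact le_of_mul_le_mul_right h5 h4
    -- the subspaces
    have hsub : ∀ z ∈ Z, ∃ f : Fin n₁ → Fin k ⊕ Fin m, IsSub f ∧ ∀ y, sp f y ∈ Az z := by
      intro z hz
      rw [hZ, Finset.mem_filter] at hz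
      refine hn₁ (Fin n₁) (by simp) (Az z) ?_
      rw [Fintype.card_fin]
      exact hz.2
    obtain ⟨Zf, hZf⟩ : ∃ Zf : (Fin n₁ → Fin k ⊕ Fin m) → Finset (Fin r → Fin k),
      Zf = fun f => univ.filter fun z => IsSub f ∧ ∀ y, sp f y ∈ Az z := ⟨_, rfl⟩
    obtain ⟨f, hf⟩ : ∃ f, δ / (2 * F) * (k : ℝ) ^ r ≤ ((Zf f).card : ℝ) := by
      by_contra hcon
      push Not at hcon
      have h1 : (Z.card : ℝ) ≤ ∑ f, ((Zf f).card : ℝ) := by
        have h2 : Z ⊆ univ.biUnion Zf := by
          intro z hz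
          obtain ⟨f, h3, h4⟩ := hsub z hz
          rw [Finset.mem_biUnion]
          refine ⟨f, Finset.mem_univ f, ?_⟩
          rw [hZf]
          exact Finset.mem_filter.2 ⟨Finset.mem_univ z, h3, h4⟩
        have h3 := (Finset.card_le_card h2).trans Finset.card_biUnion_le
        exact_mod_cast h3
      have h2 : ∑ f, ((Zf f).card : ℝ) < ∑ _f : Fin n₁ → Fin k ⊕ Fin m, δ / (2 * F) * (k : ℝ) ^ r :=
        Finset.sum_lt_sum_of_nonempty Finset.univ_nonempty fun f _ => hcon f
      rw [Finset.sum_const, Finset.card_univ, nsmul_eq_mul, ← hF] at h2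
      have h3 : F * (δ / (2 * F) * (k : ℝ) ^ r) = δ / 2 * (k : ℝ) ^ r := by
        field_simp
      rw [h3] at h2
      linarith
    obtain ⟨w, hw, hwm⟩ := hn₂ (Fin r) (by simpa using hrn) (Zf f) (by
      rw [Fintype.card_fin]
      exact hf)
    have hwm' : ∀ a, IsSub f ∧ ∀ y, glue e (sp f y) (lp w a) ∈ A := by
      intro a
      have h1 := hwm a
      rw [hZf] at h1
      have h2 := (Finset.mem_filter.1 h1).2
      refine ⟨h2.1, fun y => ?_⟩
      have h3 := h2.2 y
      rw [hAz] at h3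
      exact (Finset.mem_filter.1 h3).2
    have hfs : IsSub f := (hwm' ⟨0, hk⟩).1
    obtain ⟨g, hg⟩ : ∃ g : Fin n₁ ⊕ Fin r → Fin k ⊕ Fin (m + 1), g = Sum.elim
      (fun j => Sum.map id Fin.castSucc (f j))
      (fun j => Option.elim (w j) (Sum.inr (Fin.last m)) Sum.inl) := ⟨_, rfl⟩
    refine ⟨fun i => g (e i), ?_, ?_⟩
    · intro t
      refine Fin.lastCases ?_ (fun t' => ?_) t
      · obtain ⟨j, hj⟩ := hw
        refine ⟨e.symm (Sum.inr j), ?_⟩
        show g (e (e.symm (Sum.inr j))) = _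
        rw [e.apply_symm_apply, hg]
        show Option.elim (w j) (Sum.inr (Fin.last m)) Sum.inl = _
        rw [hj]
        rfl
      · obtain ⟨j, hj⟩ := hfs t'
        refine ⟨e.symm (Sum.inl j), ?_⟩
        show g (e (e.symm (Sum.inl j))) = _
        rw [e.apply_symm_apply, hg]
        show Sum.map id Fin.castSucc (f j) = _
        rw [hj]
        rfl
    · intro y
      have h1 : sp (fun i => g (e i)) y =
          glue e (sp f fun t => y t.castSucc) (lp w (y (Fin.last m))) := by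
        funext i
        unfold sp glue lp
        show Sum.elim id y (g (e i)) = _
        rcases e i with j | j
        · rw [hg]
          show Sum.elim id y (Sum.map id Fin.castSucc (f j)) =
            Sum.elim id (fun t => y t.castSucc) (f j)
          rcases f j with a | t <;> rfl
        · rw [hg]
          show Sum.elim id y (Option.elim (w j) (Sum.inr (Fin.last m)) Sum.inl) =
            (w j).getD (y (Fin.last m))
          rcases w j with _ | a <;> rfl
      rw [h1]
      exact (hwm' (y (Fin.last m))).2 _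

end Pool.Agent.GT.H8
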