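import Pool.Agent.GT.StmtsA

/-! Squad GT, row A_SAM: sampling by second moments. -/

open Finset

namespace Pool.Agent.GT.H8

open Pool.Agent.GT

variable {ι : Type} [Fintype ι] [DecidableEq ι] {k : ℕ}

/-- indicator of: no letter `∗` on `T` -/
def ind (T : Finset ι) (w : ι → Fin (k + 1)) : ℝ := if ∀ i ∈ T, w i ≠ Fin.last k then 1 else 0

theorem ind_mul (T S : Finset ι) (w : ι → Fin (k + 1)) : ind T w * ind S w = ind (T ∪ S) w := by
  unfold ind
  by_cases h1 : ∀ i ∈ T, w i ≠ Fin.last k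
  · by_cases h2 : ∀ i ∈ S, w i ≠ Fin.last k
    · have h3 : ∀ i ∈ T ∪ S, w i ≠ Fin.last k := by
        intro i hi
        rcases Finset.mem_union.1 hi with h | h
        · exact h1 i h
        · exact h2 i h
      rw [if_pos h1, if_pos h2, if_pos h3, mul_one]
    · have h3 : ¬ ∀ i ∈ T ∪ S, w i ≠ Fin.last k :=
        fun h => h2 fun i hi => h i (Finset.mem_union_right _ hi)
      rw [if_neg h2, if_neg h3, mul_zero]
  · have h3 : ¬ ∀ i ∈ T ∪ S, w i ≠ Fin.last k :=
      fun h => h1 fun i hi => h i (Finset.mem_union_left _ hi)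
    rw [if_neg h1, if_neg h3, zero_mul]

theorem sum_ind (T : Finset ι) :
    ∑ w : ι → Fin (k + 1), ind T w =
      ((k : ℝ) / (k + 1)) ^ T.card * ((k : ℝ) + 1) ^ Fintype.card ι := by
  classical
  have hk : ((k : ℝ) + 1) ≠ 0 := by positivity
  have h1 : ∑ w : ι → Fin (k + 1), ind T w =
      ((Fintype.piFinset fun i => if i ∈ T then (univ.erase (Fin.last k)) else univ).card : ℝ) := by
    unfold ind
    rw [Finset.sum_boole]
    congr 2
    ext w
    rw [Finset.mem_filter, Fintype.mem_piFinset]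
    constructor
    · rintro ⟨_, h⟩ i
      by_cases hi : i ∈ T
      · rw [if_pos hi]
        exact Finset.mem_erase.2 ⟨h i hi, Finset.mem_univ _⟩
      · rw [if_neg hi]
        exact Finset.mem_univ _
    · intro h
      refine ⟨Finset.mem_univ _, fun i hi => ?_⟩
      have h2 := h i
      rw [if_pos hi] at h2
      exact (Finset.mem_erase.1 h2).1
  rw [h1, Fintype.card_piFinset]
  push_cast
  have h2 : ∀ i ∈ (univ : Finset ι),
      (((if i ∈ T then (univ.erase (Fin.last k)) else univ : Finset (Fin (k + 1))).card : ℕ) : ℝ) =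
      (if i ∈ T then (k : ℝ) / (k + 1) else 1) * ((k : ℝ) + 1) := by
    intro i _
    by_cases hi : i ∈ T
    · rw [if_pos hi, if_pos hi, Finset.card_erase_of_mem (Finset.mem_univ _), Finset.card_univ,
        Fintype.card_fin, Nat.add_sub_cancel, div_mul_cancel₀ _ hk]
    · rw [if_neg hi, if_neg hi, Finset.card_univ, Fintype.card_fin, one_mul]
      push_cast
      rfl
  rw [Finset.prod_congr rfl h2, Finset.prod_mul_distrib, Finset.prod_ite_mem, Finset.univ_inter,
    Finset.prod_const, Finset.prod_const, Finset.card_univ]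

/-- the block number `j` -/
def blk {L n' : ℕ} (b : Fin L × Fin n' ↪ ι) (j : Fin L) : Finset ι :=
  univ.image fun t => b (j, t)

theorem blk_card {L n' : ℕ} (b : Fin L × Fin n' ↪ ι) (j : Fin L) : (blk b j).card = n' := by
  unfold blk
  rw [Finset.card_image_of_injective, Finset.card_univ, Fintype.card_fin]
  intro s t h
  exact (Prod.mk.inj (b.injective h)).2

theorem blk_disj {L n' : ℕ} (b : Fin L × Fin n' ↪ ι) {j j' : Fin L} (h : j ≠ j') :
    Disjoint (blk b j) (blk b j') := by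
  rw [Finset.disjoint_left]
  intro i hi hi'
  unfold blk at hi hi'
  rw [Finset.mem_image] at hi hi'
  obtain ⟨t, _, ht⟩ := hi
  obtain ⟨t', _, ht'⟩ := hi'
  exact h (Prod.mk.inj (b.injective (ht.trans ht'.symm))).1

/-- the words with random letters in one block -/
theorem block_sum {n' : ℕ} (hk : 0 < k) (β : Fin n' → ι) (hβ : Function.Injective β)
    (φ : (ι → Fin (k + 1)) → ℝ) :
    ∑ u : ι → Fin (k + 1), ∑ x : Fin n' → Fin k, φ (Function.extend β (cs x) u) =
      ((k : ℝ) + 1) ^ n' * ∑ w : ι → Fin (k + 1), ind (univ.image β) w * φ w := by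
  classical
  have h1 : ((k : ℝ) + 1) ^ n' * ∑ w : ι → Fin (k + 1), ind (univ.image β) w * φ w =
      ∑ q ∈ (univ.filter fun w : ι → Fin (k + 1) => ∀ i ∈ univ.image β, w i ≠ Fin.last k) ×ˢ
        (univ : Finset (Fin n' → Fin (k + 1))), φ q.1 := by
    rw [Finset.sum_product]
    have h2 : ∀ w ∈ (univ.filter fun w : ι → Fin (k + 1) => ∀ i ∈ univ.image β, w i ≠ Fin.last k),
        (∑ _v : Fin n' → Fin (k + 1), φ w) = ((k : ℝ) + 1) ^ n' * φ w := by
      intro w _
      rw [Finset.sum_const, Finset.card_univ, Fintype.card_fun, Fintype.card_fin, Fintype.card_fin,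
        nsmul_eq_mul]
      push_cast
      rfl
    rw [Finset.sum_congr rfl h2, ← Finset.mul_sum, Finset.sum_filter]
    congr 1
    refine Finset.sum_congr rfl fun w _ => ?_
    unfold ind
    split_ifs <;> simp
  rw [h1, ← Finset.sum_product']
  refine Finset.sum_nbij' (fun p => (Function.extend β (cs p.2) p.1, p.1 ∘ β))
    (fun q => (Function.extend β q.2 q.1, rp (q.1 ∘ β) ⟨0, hk⟩)) ?_ ?_ ?_ ?_ ?_
  · rintro ⟨u, x⟩ _
    rw [Finset.mem_product, Finset.mem_filter]
    refine ⟨⟨Finset.mem_univ _, ?_⟩, Finset.mem_univ _⟩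
    intro i hi
    rw [Finset.mem_image] at hi
    obtain ⟨t, _, rfl⟩ := hi
    show Function.extend β (cs x) u (β t) ≠ Fin.last k
    rw [hβ.extend_apply]
    exact (Fin.castSucc_lt_last _).ne
  · rintro ⟨w, v⟩ _
    exact Finset.mem_product.2 ⟨Finset.mem_univ _, Finset.mem_univ _⟩
  · rintro ⟨u, x⟩ _
    refine Prod.ext ?_ ?_
    · show Function.extend β (u ∘ β) (Function.extend β (cs x) u) = u
      funext i
      by_cases hi : ∃ t, β t = i
      · obtain ⟨t, rfl⟩ := hi
        rw [hβ.extend_apply]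
        rfl
      · rw [Function.extend_apply' _ _ _ hi, Function.extend_apply' _ _ _ hi]
    · show rp (Function.extend β (cs x) u ∘ β) ⟨0, hk⟩ = x
      have h3 : Function.extend β (cs x) u ∘ β = cs x := by
        funext t
        exact hβ.extend_apply _ _ _
      rw [h3, rp_cs]
  · rintro ⟨w, v⟩ hq
    rw [Finset.mem_product, Finset.mem_filter] at hq
    have hw := hq.1.2
    refine Prod.ext ?_ ?_
    · show Function.extend β (cs (rp (w ∘ β) ⟨0, hk⟩)) (Function.extend β v w) = w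
      funext i
      by_cases hi : ∃ t, β t = i
      · obtain ⟨t, rfl⟩ := hi
        rw [hβ.extend_apply]
        have h4 : w (β t) ≠ Fin.last k := hw (β t) (Finset.mem_image_of_mem _ (Finset.mem_univ t))
        show (rp (w ∘ β) ⟨0, hk⟩ t).castSucc = w (β t)
        unfold rp
        have h5 : ¬ (w ∘ β) t = Fin.last k := h4
        rw [dif_neg h5, Fin.castSucc_castPred]
        rfl
      · rw [Function.extend_apply' _ _ _ hi, Function.extend_apply' _ _ _ hi]
    · show Function.extend β v w ∘ β = v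
      funext t
      exact hβ.extend_apply _ _ _
  · rintro ⟨u, x⟩ _
    rfl

/-- the second moment -/
theorem second {L n' : ℕ} (hk : 0 < k) (hL : 0 < L) (b : Fin L × Fin n' ↪ ι) {ρ : ℝ}
    (hρ : ρ = (((k : ℝ) + 1) / k) ^ n') :
    ∑ w : ι → Fin (k + 1), (ρ / L * (∑ j, ind (blk b j) w) - 1) ^ 2 =
      (ρ - 1) / L * ((k : ℝ) + 1) ^ Fintype.card ι := by
  have hk' : (0 : ℝ) < k := by exact_mod_cast hk
  have hL' : (0 : ℝ) < L := by exact_mod_cast hL
  have hρ0 : 0 < ρ := by rw [hρ]; positivity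
  obtain ⟨N, hN⟩ : ∃ N : ℝ, N = ((k : ℝ) + 1) ^ Fintype.card ι := ⟨_, rfl⟩
  have hr : ((k : ℝ) / (k + 1)) ^ n' = ρ⁻¹ := by
    rw [hρ, ← inv_pow, inv_div]
  have h1 : ∀ j, ∑ w : ι → Fin (k + 1), ind (blk b j) w = ρ⁻¹ * N := by
    intro j
    rw [sum_ind, blk_card, hr, hN]
  have h2 : ∀ j j', ∑ w : ι → Fin (k + 1), ind (blk b j) w * ind (blk b j') w =
      (ρ⁻¹ ^ 2 + if j = j' then (ρ⁻¹ - ρ⁻¹ ^ 2) else 0) * N := by
    intro j j'
    simp only [ind_mul]
    rw [sum_ind]
    by_cases h : j = j'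
    · subst h
      rw [if_pos rfl, Finset.union_self, blk_card, hr, hN]
      ring
    · rw [if_neg h, Finset.card_union_of_disjoint (blk_disj b h), blk_card, blk_card, pow_add, hr, hN]
      ring
  have h3 : ∀ w : ι → Fin (k + 1), (ρ / L * (∑ j, ind (blk b j) w) - 1) ^ 2 =
      (ρ / L) ^ 2 * (∑ j, ∑ j', ind (blk b j) w * ind (blk b j') w) -
        2 * (ρ / L) * (∑ j, ind (blk b j) w) + 1 := by
    intro w
    rw [← Finset.sum_mul_sum]
    ring
  rw [Finset.sum_congr rfl fun w _ => h3 w, Finset.sum_add_distrib, Finset.sum_sub_distrib,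
    ← Finset.mul_sum, ← Finset.mul_sum, Finset.sum_comm, Finset.sum_comm (s := univ) (t := univ)
      (f := fun (w : ι → Fin (k + 1)) j => ind (blk b j) w)]
  have h4 : ∑ j, ∑ w : ι → Fin (k + 1), ind (blk b j) w = L * (ρ⁻¹ * N) := by
    rw [Finset.sum_congr rfl fun j _ => h1 j, Finset.sum_const, Finset.card_univ, Fintype.card_fin,
      nsmul_eq_mul]
  have h5 : ∑ j, ∑ w : ι → Fin (k + 1), ∑ j', ind (blk b j) w * ind (blk b j') w =
      (L * L * ρ⁻¹ ^ 2 + L * (ρ⁻¹ - ρ⁻¹ ^ 2)) * N := by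
    have h6 : ∀ j, ∑ w : ι → Fin (k + 1), ∑ j', ind (blk b j) w * ind (blk b j') w =
        (L * ρ⁻¹ ^ 2 + (ρ⁻¹ - ρ⁻¹ ^ 2)) * N := by
      intro j
      rw [Finset.sum_comm, Finset.sum_congr rfl fun j' _ => h2 j j', ← Finset.sum_mul,
        Finset.sum_add_distrib, Finset.sum_const, Finset.card_univ, Fintype.card_fin, nsmul_eq_mul,
        Finset.sum_ite_eq, if_pos (Finset.mem_univ j)]
    rw [Finset.sum_congr rfl fun j _ => h6 j, Finset.sum_const, Finset.card_univ, Fintype.card_fin,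
      nsmul_eq_mul]
    ring
  rw [h4, h5, Finset.sum_const, Finset.card_univ, Fintype.card_fun, Fintype.card_fin, nsmul_eq_mul,
    mul_one, ← hN]
  have h7 : (((k + 1 : ℕ) ^ Fintype.card ι : ℕ) : ℝ) = N := by
    rw [hN]
    push_cast
    rfl
  rw [h7]
  have hρ' : ρ ≠ 0 := hρ0.ne'
  have hL'' : (L : ℝ) ≠ 0 := hL'.ne'
  field_simp
  ring

theorem sam : SamStmt := by
  intro k n' ε hk hε
  have hk' : (0 : ℝ) < k := by exact_mod_cast hk
  obtain ⟨ρ, hρ⟩ : ∃ ρ : ℝ, ρ = (((k : ℝ) + 1) / k) ^ n' := ⟨_, rfl⟩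
  have hρ0 : 0 < ρ := by rw [hρ]; positivity
  obtain ⟨L, hL⟩ : ∃ L : ℕ, L = ⌈ρ / ε ^ 2⌉₊ + 1 := ⟨_, rfl⟩
  have hL0 : 0 < L := by omega
  have hL' : (0 : ℝ) < L := by exact_mod_cast hL0
  have hLε : (ρ - 1) / L ≤ ε ^ 2 := by
    rw [div_le_iff₀ hL']
    have h1 : ρ / ε ^ 2 ≤ L := by
      rw [hL]
      push_cast
      have := Nat.le_ceil (ρ / ε ^ 2)
      linarith
    rw [div_le_iff₀ (by positivity)] at h1
    linarith
  refine ⟨L * n', ?_⟩
  intro ι _ _ hι φ h0 h1
  obtain ⟨b⟩ : Nonempty (Fin L × Fin n' ↪ ι) := by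
    apply Function.Embedding.nonempty_of_card_le
    rw [Fintype.card_prod, Fintype.card_fin, Fintype.card_fin]
    exact hι
  obtain ⟨N, hN⟩ : ∃ N : ℝ, N = ((k : ℝ) + 1) ^ Fintype.card ι := ⟨_, rfl⟩
  have hN0 : 0 < N := by rw [hN]; positivity
  have hβ : ∀ j, Function.Injective (fun t => b (j, t)) := by
    intro j s t h
    exact (Prod.mk.inj (b.injective h)).2
  -- the subspaces
  obtain ⟨f, hf⟩ : ∃ f : Fin L → (ι → Fin (k + 1)) → ι → Fin (k + 1) ⊕ Fin n',
    f = fun j u => Function.extend (fun t => b (j, t)) (fun t => Sum.inr t) (fun i => Sum.inl (u i)) :=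
    ⟨_, rfl⟩
  have hfs : ∀ j u, IsSub (f j u) := by
    intro j u t
    refine ⟨b (j, t), ?_⟩
    rw [hf]
    exact (hβ j).extend_apply _ _ t
  have hfsp : ∀ j u y, sp (f j u) y = Function.extend (fun t => b (j, t)) y u := by
    intro j u y
    funext i
    unfold sp
    rw [hf]
    show Sum.elim id y (Function.extend (fun t => b (j, t)) (fun t => Sum.inr t)
      (fun i => Sum.inl (u i)) i) = _
    by_cases hi : ∃ t, b (j, t) = i
    · obtain ⟨t, rfl⟩ := hi
      have e1 := (hβ j).extend_apply (fun t => (Sum.inr t : Fin (k + 1) ⊕ Fin n'))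
        (fun i => Sum.inl (u i)) t
      have e2 := (hβ j).extend_apply y u t
      rw [e1, e2]
      rfl
    · rw [Function.extend_apply' _ _ _ hi, Function.extend_apply' _ _ _ hi]
      rfl
  -- the average
  have htot : ∑ j, ∑ u, (∑ x : Fin n' → Fin k, φ (sp (f j u) (cs x))) / (k : ℝ) ^ n' =
      ∑ w : ι → Fin (k + 1), φ w * (ρ * ∑ j, ind (blk b j) w) := by
    have e1 : ∀ j, ∑ u, (∑ x : Fin n' → Fin k, φ (sp (f j u) (cs x))) / (k : ℝ) ^ n' =
        ρ * ∑ w : ι → Fin (k + 1), ind (blk b j) w * φ w := by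
      intro j
      rw [← Finset.sum_div]
      simp only [hfsp]
      rw [block_sum hk _ (hβ j) φ, hρ, div_pow]
      have e2 : (univ.image fun t => b (j, t)) = blk b j := rfl
      rw [e2]
      ring
    rw [Finset.sum_congr rfl fun j _ => e1 j, ← Finset.mul_sum, Finset.sum_comm, Finset.mul_sum]
    refine Finset.sum_congr rfl fun w _ => ?_
    rw [← Finset.sum_mul]
    ring
  have hmain : L * (∑ w, φ w - ε * N) ≤
      ∑ w : ι → Fin (k + 1), φ w * (ρ * ∑ j, ind (blk b j) w) := by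
    have e1 : ∀ w : ι → Fin (k + 1), φ w - ((ρ / L * (∑ j, ind (blk b j) w) - 1) ^ 2 / (2 * ε) +
        ε / 2) ≤ φ w * (ρ / L * ∑ j, ind (blk b j) w) := by
      intro w
      obtain ⟨G, hG⟩ : ∃ G : ℝ, G = ρ / L * ∑ j, ind (blk b j) w := ⟨_, rfl⟩
      rw [← hG]
      have hw0 := h0 w
      have hw1 := h1 w
      have e2 : -((G - 1) ^ 2 / (2 * ε) + ε / 2) ≤ φ w * (G - 1) := by
        have e3 : -|G - 1| ≤ φ w * (G - 1) := by
          have e4 : |φ w * (G - 1)| ≤ |G - 1| := by
            rw [abs_mul, abs_of_nonneg hw0]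
            exact mul_le_of_le_one_left (abs_nonneg _) hw1
          have e5 := neg_abs_le (φ w * (G - 1))
          linarith
        have e4 : |G - 1| ≤ (G - 1) ^ 2 / (2 * ε) + ε / 2 := by
          have e5 : (G - 1) ^ 2 / (2 * ε) + ε / 2 - |G - 1| = (|G - 1| - ε) ^ 2 / (2 * ε) := by
            rw [← sq_abs (G - 1)]
            field_simp
            ring
          have e6 : 0 ≤ (|G - 1| - ε) ^ 2 / (2 * ε) := by positivity
          linarith
        linarith
      linarith
    have e2 := Finset.sum_le_sum fun w (_ : w ∈ (univ : Finset (ι → Fin (k + 1)))) => e1 w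
    rw [Finset.sum_sub_distrib, Finset.sum_add_distrib, ← Finset.sum_div, second hk hL0 b hρ,
      Finset.sum_const, Finset.card_univ, Fintype.card_fun, Fintype.card_fin, nsmul_eq_mul] at e2
    have e3 : (((k + 1 : ℕ) ^ Fintype.card ι : ℕ) : ℝ) = N := by
      rw [hN]
      push_cast
      rfl
    rw [e3, ← hN] at e2
    have e4 : (ρ - 1) / L * N / (2 * ε) ≤ ε / 2 * N := by
      rw [div_le_iff₀ (by positivity)]
      have := mul_le_mul_of_nonneg_right hLε hN0.le
      have e5 : ε / 2 * N * (2 * ε) = ε ^ 2 * N := by ring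
      rw [e5]
      exact this
    have e5 : ∑ w : ι → Fin (k + 1), φ w * (ρ * ∑ j, ind (blk b j) w) =
        L * ∑ w : ι → Fin (k + 1), φ w * (ρ / L * ∑ j, ind (blk b j) w) := by
      rw [Finset.mul_sum]
      refine Finset.sum_congr rfl fun w _ => ?_
      field_simp
    rw [e5]
    refine mul_le_mul_of_nonneg_left ?_ hL'.le
    linarith
  -- some subspace is as good as the average
  by_contra hcon
  push Not at hcon
  have hlt : ∀ j u, (∑ x : Fin n' → Fin k, φ (sp (f j u) (cs x))) / (k : ℝ) ^ n' <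
      (∑ w, φ w) / N - ε := by
    intro j u
    rw [hN]
    exact hcon (f j u) (hfs j u)
  have : Nonempty (Fin L) := ⟨⟨0, hL0⟩⟩
  have h2 : ∑ j : Fin L, ∑ u, (∑ x : Fin n' → Fin k, φ (sp (f j u) (cs x))) / (k : ℝ) ^ n' <
      ∑ _j : Fin L, ∑ _u : ι → Fin (k + 1), ((∑ w, φ w) / N - ε) := by
    refine Finset.sum_lt_sum_of_nonempty Finset.univ_nonempty fun j _ => ?_
    exact Finset.sum_lt_sum_of_nonempty Finset.univ_nonempty fun u _ => hlt j u
  rw [htot, Finset.sum_const, Finset.sum_const, Finset.card_univ, Finset.card_univ, Fintype.card_fun,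
    Fintype.card_fin, Fintype.card_fin, nsmul_eq_mul, nsmul_eq_mul] at h2
  have e3 : (((k + 1 : ℕ) ^ Fintype.card ι : ℕ) : ℝ) = N := by
    rw [hN]
    push_cast
    rfl
  rw [e3] at h2
  have h3 : (L : ℝ) * (N * ((∑ w, φ w) / N - ε)) = L * (∑ w, φ w - ε * N) := by
    field_simp
  rw [h3] at h2
  linarith

end Pool.Agent.GT.H8
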